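import Pool.Agent.W96.CL.Stm

/-!
# Project CL, part CROSS: crossing symmetry and reality
-/

set_option autoImplicit false

open Polynomial Filter Topology

namespace W96CL

namespace CrossAux

theorem uu_rel : uu ^ 2 - uu + 1 = 0 := by
  have h3 : (Real.sqrt 3) ^ 2 = 3 := Real.sq_sqrt (by norm_num)
  apply Complex.ext
  · simp [uu, pow_two]
    nlinarith
  · simp [uu, pow_two]
    ring

theorem conj_uu : (starRingEnd ℂ) uu = 1 - uu := by
  apply Complex.ext
  · simp [uu]
    norm_num
  · simp [uu]

/-- `ph1 - F` -/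
noncomputable def kb (x : ℂ) : ℂ := (2 - uu) + (1 + uu) * x ^ 2
/-- `ph1 - tau` -/
noncomputable def kk' (x : ℂ) : ℂ := (1 + uu) + (2 - uu) * x ^ 2
/-- `F - tau` -/
noncomputable def dd (x : ℂ) : ℂ := (2 * uu - 1) * (1 - x ^ 2)

theorem sc_kb {x z : ℂ} (hz : z ≠ 0) :
    wF (x / z) * wT (x * z) + wT (x / z) * wF (x * z) + wT (x / z) * wT (x * z) = kb x := by
  have hab : (x / z) * (x * z) = x ^ 2 := by field_simp
  unfold wF wT kb
  generalize x / z = a at hab ⊢
  generalize x * z = b at hab ⊢
  linear_combination (a + b - 1 - x ^ 2) * uu_rel + (1 - (1 - uu) ^ 2) * hab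

theorem sc_ph {x z : ℂ} :
    ph1 x z - wF (x / z) * wF (x * z) =
      wF (x / z) * wT (x * z) + wT (x / z) * wF (x * z) + wT (x / z) * wT (x * z) := by
  unfold ph1 wF wT
  ring

theorem sc_k {x z : ℂ} (hz : z ≠ 0) : ph1 x z - tau x z = kk' x := by
  have hab : (x / z) * (x * z) = x ^ 2 := by field_simp
  unfold ph1 tau wT kk'
  generalize x / z = a at hab ⊢
  generalize x * z = b at hab ⊢
  linear_combination (a + b - 1 - x ^ 2) * uu_rel + (1 - uu ^ 2) * hab

theorem sc_d {x z : ℂ} (hz : z ≠ 0) :
    wF (x / z) * wF (x * z) - wT (x / z) * wT (x * z) = dd x := by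
  have h1 := sc_k (x := x) hz
  have h2 := sc_kb (x := x) hz
  have h3 := sc_ph (x := x) (z := z)
  unfold tau at h1
  unfold kk' at h1
  unfold kb at h2
  unfold dd
  linear_combination h1 - h2 - h3

section alg

variable {A : Type} [Ring A] [Algebra ℂ A]

theorem expand (p q r s : ℂ) (e B : A) : (p • (1 : A) + q • e) * B * (r • (1 : A) + s • e) =
    (p * r) • B + (p * s) • (B * e) + (q * r) • (e * B) + (q * s) • (e * B * e) := by
  simp only [add_mul, mul_add, smul_mul_assoc, mul_smul_comm, one_mul, mul_one, smul_smul]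
  module

/-- the face operator with the weights exchanged -/
noncomputable def Xt (e : ℕ → A) (i : ℕ) (y : ℂ) : A := wT y • (1 : A) + wF y • e i

/-- the two rows with the weights exchanged -/
noncomputable def Bt (e : ℕ → A) (x : ℂ) : ℕ → List ℂ → A
  | _, [] => 1
  | i, z :: L => Xt e i (x * z) * Bt e x (i + 1) L * Xt e i (x / z)

/-- the double row transfer matrix with the weights exchanged -/
noncomputable def Dt (e : ℕ → A) (x : ℂ) : ℕ → List ℂ → A
  | _, [] => 1
  | i, z :: L => (ph1 x z - wF (x / z) * wF (x * z)) • Bt e x i L +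
      (wF (x / z) * wF (x * z)) • Dt e x (i + 1) L

variable {e : ℕ → A} {N : ℕ}

theorem comm_Xt {i j : ℕ} (h : e i * e j = e j * e i) (y : ℂ) : Commute (e i) (Xt e j y) := by
  unfold Xt
  exact ((Commute.one_right _).smul_right _).add_right ((show Commute (e i) (e j) from h).smul_right _)

theorem comm_t (hT : TL e N) (x : ℂ) (L : List ℂ) : ∀ i j : ℕ, i + 1 < j →
    (j + L.length < N → Commute (e i) (Bt e x j L)) ∧
    (j + L.length ≤ N → Commute (e i) (Dt e x j L)) := by
  induction L with
  | nil =>
    intro i j _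
    exact ⟨fun _ => Commute.one_right _, fun _ => Commute.one_right _⟩
  | cons z L ih =>
    intro i j hij
    constructor
    · intro h
      rw [List.length_cons] at h
      have hc := hT.cm i j hij (by omega)
      exact ((comm_Xt hc _).mul_right ((ih i (j + 1) (by omega)).1 (by omega))).mul_right
        (comm_Xt hc _)
    · intro h
      rw [List.length_cons] at h
      exact (((ih i j hij).1 (by omega)).smul_right _).add_right
        (((ih i (j + 1) (by omega)).2 (by omega)).smul_right _)

/-- the trace formula with the weights exchanged -/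
theorem trace_t (hT : TL e N) (x : ℂ) (L : List ℂ) : ∀ i : ℕ, i + L.length + 1 < N →
    e i * Bt e x (i + 1) L * e i = e i * Dt e x (i + 2) L := by
  induction L with
  | nil =>
    intro i h
    change e i * 1 * e i = e i * 1
    rw [mul_one, hT.sq i (by simpa using h)]
  | cons z L ih =>
    intro i h
    rw [List.length_cons] at h
    have hB : Commute (e i) (Bt e x (i + 2) L) := (comm_t hT x L i (i + 2) (by omega)).1 (by omega)
    have hD : Commute (e i) (Dt e x (i + 3) L) := (comm_t hT x L i (i + 3) (by omega)).2 (by omega)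
    have hih := ih (i + 1) (by omega)
    have hup := hT.up i (by omega)
    have hsq := hT.sq i (by omega)
    change e i * (Xt e (i + 1) (x * z) * Bt e x (i + 2) L * Xt e (i + 1) (x / z)) * e i =
      e i * ((ph1 x z - wF (x / z) * wF (x * z)) • Bt e x (i + 2) L +
        (wF (x / z) * wF (x * z)) • Dt e x (i + 3) L)
    change e (i + 1) * Bt e x (i + 2) L * e (i + 1) = e (i + 1) * Dt e x (i + 3) L at hih
    unfold Xt
    rw [expand, hih, sc_ph]
    generalize Bt e x (i + 2) L = B at hB ⊢
    generalize Dt e x (i + 3) L = D at hD ⊢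
    have t1 : e i * B * e i = e i * B := by
      rw [mul_assoc, ← hB.eq, ← mul_assoc, hsq]
    have t2 : e i * (B * e (i + 1)) * e i = e i * B := by
      rw [← mul_assoc, hB.eq, mul_assoc, mul_assoc, ← mul_assoc (e i), hup]
    have t3 : e i * (e (i + 1) * B) * e i = e i * B := by
      rw [← mul_assoc, mul_assoc _ B, ← hB.eq, ← mul_assoc, hup]
    have t4 : e i * (e (i + 1) * D) * e i = e i * D := by
      rw [← mul_assoc, mul_assoc _ D, ← hD.eq, ← mul_assoc, hup]
    simp only [mul_add, add_mul, mul_smul_comm, smul_mul_assoc]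
    rw [t1, t2, t3, t4]
    module

theorem main_t (hT : TL e N) (x : ℂ) (L : List ℂ) (hL : ∀ z ∈ L, z ≠ 0) : ∀ i : ℕ,
    (i + L.length < N → kk' x • BB e x i L = kb x • Bt e x i L + dd x • DD e x (i + 1) L) ∧
    (i + L.length ≤ N → Dt e x i L = DD e x i L) := by
  induction L with
  | nil =>
    intro i
    refine ⟨fun _ => ?_, fun _ => rfl⟩
    change kk' x • (1 : A) = kb x • (1 : A) + dd x • (1 : A)
    rw [← add_smul]
    congr 1
    unfold kk' kb dd
    ring
  | cons z L ih =>
    have hz : z ≠ 0 := hL z (List.mem_cons_self)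
    have ih := ih fun w hw => hL w (List.mem_cons_of_mem z hw)
    have hb2 : ∀ i : ℕ, i + (z :: L).length ≤ N → Dt e x i (z :: L) = DD e x i (z :: L) := by
      intro i h
      rw [List.length_cons] at h
      change (ph1 x z - wF (x / z) * wF (x * z)) • Bt e x i L +
        (wF (x / z) * wF (x * z)) • Dt e x (i + 1) L =
        (ph1 x z - tau x z) • BB e x i L + tau x z • DD e x (i + 1) L
      rw [sc_ph, sc_kb hz, sc_k hz, (ih i).1 (by omega), (ih (i + 1)).2 (by omega)]
      have h1 := sc_d (x := x) hz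
      have h2 : wF (x / z) * wF (x * z) = dd x + tau x z := by
        unfold tau
        linear_combination h1
      rw [h2]
      module
    intro i
    refine ⟨fun h => ?_, hb2 i⟩
    rw [← hb2 (i + 1) (by omega)]
    rw [List.length_cons] at h
    have htr := trace_t hT x L i (by omega)
    have hD : Commute (e i) (Dt e x (i + 2) L) := (comm_t hT x L i (i + 2) (by omega)).2 (by omega)
    have hsq := hT.sq i (by omega)
    change kk' x • (XX e i (x / z) * BB e x (i + 1) L * XX e i (x * z)) =
      kb x • (Xt e i (x * z) * Bt e x (i + 1) L * Xt e i (x / z)) +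
      dd x • ((ph1 x z - wF (x / z) * wF (x * z)) • Bt e x (i + 1) L +
        (wF (x / z) * wF (x * z)) • Dt e x (i + 2) L)
    have h1 : kk' x • (XX e i (x / z) * BB e x (i + 1) L * XX e i (x * z)) =
        XX e i (x / z) * (kk' x • BB e x (i + 1) L) * XX e i (x * z) := by
      rw [mul_smul_comm, smul_mul_assoc]
    rw [h1, (ih (i + 1)).1 (by omega), ← (ih (i + 2)).2 (by omega), sc_ph]
    unfold XX Xt
    rw [expand, expand]
    generalize Bt e x (i + 1) L = B at htr ⊢
    generalize Dt e x (i + 2) L = D at hD htr ⊢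
    have t1 : e i * (kb x • B + dd x • D) * e i = kb x • (e i * D) + dd x • (e i * D) := by
      rw [mul_add, add_mul, mul_smul_comm, smul_mul_assoc, htr, mul_smul_comm, smul_mul_assoc,
        mul_assoc (e i) D, ← hD.eq, ← mul_assoc, hsq]
    have t2 : (kb x • B + dd x • D) * e i = kb x • (B * e i) + dd x • (e i * D) := by
      rw [add_mul, smul_mul_assoc, smul_mul_assoc, ← hD.eq]
    have t3 : e i * (kb x • B + dd x • D) = kb x • (e i * B) + dd x • (e i * D) := by
      rw [mul_add, mul_smul_comm, mul_smul_comm]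
    rw [t1, t2, t3, htr]
    have s1 := sc_d (x := x) hz
    have s2 := sc_kb (x := x) hz
    generalize wF (x / z) = Fa at s1 s2 ⊢
    generalize wF (x * z) = Fb at s1 s2 ⊢
    generalize wT (x / z) = Ta at s1 s2 ⊢
    generalize wT (x * z) = Tb at s1 s2 ⊢
    rw [s2]
    generalize kb x = k at s2 ⊢
    generalize dd x = d at s1 ⊢
    match_scalars
    all_goals first
      | ring1
      | linear_combination k * s1
      | linear_combination d * s2 - k * s1

theorem XX_inv (i : ℕ) {y : ℂ} (hy : y ≠ 0) : y • XX e i y⁻¹ = Xt e i y := by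
  unfold XX Xt wF wT
  rw [smul_add, smul_smul, smul_smul]
  congr 2
  · field_simp
    ring
  · field_simp
    ring

theorem cross_t {x : ℂ} (hx : x ≠ 0) (L : List ℂ) (hL : ∀ z ∈ L, z ≠ 0) : ∀ i : ℕ,
    (x ^ (2 * L.length)) • BB e x⁻¹ i L = Bt e x i L ∧
    (x ^ (2 * L.length)) • DD e x⁻¹ i L = Dt e x i L := by
  induction L with
  | nil =>
    intro i
    constructor
    · change (x ^ 0) • (1 : A) = 1
      rw [pow_zero, one_smul]
    · change (x ^ 0) • (1 : A) = 1
      rw [pow_zero, one_smul]
  | cons z L ih =>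
    have hz : z ≠ 0 := hL z (List.mem_cons_self)
    have ih := ih fun w hw => hL w (List.mem_cons_of_mem z hw)
    intro i
    have e1 : x⁻¹ / z = (x * z)⁻¹ := by rw [mul_inv, div_eq_mul_inv]
    have e2 : x⁻¹ * z = (x / z)⁻¹ := by rw [inv_div, div_eq_mul_inv, mul_comm]
    have e3 : x ^ (2 * (z :: L).length) = ((x * z) * (x / z)) * x ^ (2 * L.length) := by
      rw [List.length_cons, mul_add, mul_one, pow_add]
      field_simp
    constructor
    · change (x ^ (2 * (z :: L).length)) •
        (XX e i (x⁻¹ / z) * BB e x⁻¹ (i + 1) L * XX e i (x⁻¹ * z)) =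
        Xt e i (x * z) * Bt e x (i + 1) L * Xt e i (x / z)
      rw [← XX_inv i (mul_ne_zero hx hz), ← XX_inv i (div_ne_zero hx hz), ← (ih (i + 1)).1, e1, e2,
        e3]
      simp only [smul_mul_assoc, mul_smul_comm, smul_smul]
      congr 1
      ring
    · change (x ^ (2 * (z :: L).length)) •
        ((ph1 x⁻¹ z - tau x⁻¹ z) • BB e x⁻¹ i L + tau x⁻¹ z • DD e x⁻¹ (i + 1) L) =
        (ph1 x z - wF (x / z) * wF (x * z)) • Bt e x i L +
          (wF (x / z) * wF (x * z)) • Dt e x (i + 1) L
      rw [← (ih i).1, ← (ih (i + 1)).2, smul_add, smul_smul, smul_smul, smul_smul, smul_smul, e3]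
      have h1 : (x * z) * (x / z) * tau x⁻¹ z = wF (x / z) * wF (x * z) := by
        unfold tau wT wF
        field_simp
        ring
      have h2 : (x * z) * (x / z) * ph1 x⁻¹ z = ph1 x z := by
        unfold ph1
        field_simp
        ring
      congr 2
      · rw [← h1, ← h2]
        ring
      · rw [← h1]
        ring

end alg

section mat

variable {S : Type} [Fintype S] [DecidableEq S] {e : ℕ → Matrix S S ℂ}

/-- conjugation of the entries -/
noncomputable def cj : Matrix S S ℂ →+* Matrix S S ℂ := (starRingEnd ℂ).mapMatrix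

theorem cj_smul (c : ℂ) (M : Matrix S S ℂ) : cj (c • M) = (starRingEnd ℂ c) • cj M := by
  ext a b
  simp [cj]

theorem cj_XX (he : ∀ i, (e i).map (starRingEnd ℂ) = e i) (i : ℕ) (y : ℂ) :
    cj (XX e i y) = Xt e i (starRingEnd ℂ y) := by
  have h1 : cj (e i) = e i := he i
  unfold XX Xt
  rw [map_add, cj_smul, cj_smul, map_one, h1]
  congr 2
  · unfold wF wT
    rw [map_add, map_mul, map_sub, map_one, conj_uu]
    ring
  · unfold wF wT
    rw [map_add, map_mul, map_sub, map_one, conj_uu]
    ring

theorem real_t (he : ∀ i, (e i).map (starRingEnd ℂ) = e i) (x : ℂ) (L : List ℂ)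
    (hL : ∀ z ∈ L, ‖z‖ = 1) : ∀ i : ℕ,
    cj (BB e x i L) = Bt e (starRingEnd ℂ x) i L ∧
    cj (DD e x i L) = Dt e (starRingEnd ℂ x) i L := by
  induction L with
  | nil =>
    intro i
    exact ⟨map_one _, map_one _⟩
  | cons z L ih =>
    have hz : ‖z‖ = 1 := hL z (List.mem_cons_self)
    have ih := ih fun w hw => hL w (List.mem_cons_of_mem z hw)
    intro i
    have hz0 : z ≠ 0 := by
      intro h
      rw [h, norm_zero] at hz
      exact zero_ne_one hz
    have hcz : starRingEnd ℂ z = z⁻¹ := (Complex.inv_eq_conj hz).symm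
    have e1 : starRingEnd ℂ (x / z) = starRingEnd ℂ x * z := by
      rw [map_div₀, hcz, div_inv_eq_mul]
    have e2 : starRingEnd ℂ (x * z) = starRingEnd ℂ x / z := by
      rw [map_mul, hcz, div_eq_mul_inv]
    have e3 : starRingEnd ℂ (tau x z) =
        wF (starRingEnd ℂ x / z) * wF (starRingEnd ℂ x * z) := by
      unfold tau wF wT
      rw [map_mul, map_add, map_add, map_mul, map_mul, e1, e2, map_sub, map_one, conj_uu]
      ring
    have e4 : starRingEnd ℂ (ph1 x z) = ph1 (starRingEnd ℂ x) z := by
      unfold ph1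
      rw [map_mul, map_add, map_add, e1, e2, map_one]
      ring
    constructor
    · change cj (XX e i (x / z) * BB e x (i + 1) L * XX e i (x * z)) =
        Xt e i (starRingEnd ℂ x * z) * Bt e (starRingEnd ℂ x) (i + 1) L *
          Xt e i (starRingEnd ℂ x / z)
      rw [map_mul, map_mul, cj_XX he, cj_XX he, (ih (i + 1)).1, e1, e2]
    · change cj ((ph1 x z - tau x z) • BB e x i L + tau x z • DD e x (i + 1) L) =
        (ph1 (starRingEnd ℂ x) z - wF (starRingEnd ℂ x / z) * wF (starRingEnd ℂ x * z)) •
          Bt e (starRingEnd ℂ x) i L +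
          (wF (starRingEnd ℂ x / z) * wF (starRingEnd ℂ x * z)) • Dt e (starRingEnd ℂ x) (i + 1) L
      rw [map_add, cj_smul, cj_smul, map_sub, e3, e4, (ih i).1, (ih (i + 1)).2]

end mat

end CrossAux

open CrossAux

theorem cl_cross (_hc : S_comm) (_ht : S_trace) : S_cross := by
  intro A _ _ e N hT x i L hL hN hx
  rw [(cross_t hx L hL i).2]
  exact (main_t hT x L hL i).2 hN

theorem cl_real (_hc : S_comm) (_ht : S_trace) : S_real := by
  intro S _ _ e N hT he x i L hL hN
  have hL0 : ∀ z ∈ L, z ≠ 0 := by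
    intro z hz h
    have := hL z hz
    rw [h, norm_zero] at this
    exact zero_ne_one this
  rw [← (main_t hT (starRingEnd ℂ x) L hL0 i).2 hN, ← (real_t he x L hL i).2]
  rfl

end W96CL
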